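import Mathlib
import Pool.Agent.H13.T2

set_option autoImplicit false

namespace Pool.Agent.H92.Old309968.ElevenPointsSubspace

open Pool.Agent.H13

/-- For every `n ≥ 11` and very general points of the complex projective plane, consider the
`6`-dimensional linear space `L` of the classes
`y = (b₁ + b₂ + b₃; a₁, a₂, a₃, b₁, b₁, b₂, b₂, b₃, b₃, s, s, 0, …)` with real `a i`, `b i` and
`s = b₁ + b₂ + b₃ - a₁ - a₂ - a₃`.  For `y` in `L` the following are equivalent: `y` lies in the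
closed cone of curves; `y` lies in the conjectural cone, spanned by the positive cone and the
`(-1)`-curves; `y` lies in the positive cone; `y` is nef. -/
theorem result : ∀ n : ℕ, 11 ≤ n →
    VeryGeneral n (fun p => ∀ a₁ a₂ a₃ b₁ b₂ b₃ : ℝ, ∀ y : ℝ × (Fin n → ℝ),
      y = class11 n a₁ a₂ a₃ b₁ b₂ b₃ →
      ((y ∈ moriCone p ↔ y ∈ expectedCone p) ∧
        (y ∈ moriCone p ↔ 0 ≤ y.1 ∧ ∑ i, y.2 i ^ 2 ≤ y.1 ^ 2) ∧
        (y ∈ moriCone p ↔ ∀ v ∈ moriCone p, 0 ≤ y.1 * v.1 - ∑ i, y.2 i * v.2 i))) :=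
  fun n hn => thm2 n hn

end Pool.Agent.H92.Old309968.ElevenPointsSubspace
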