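import Mathlib
import Pool.Agent.H92.T3.Thm3

set_option autoImplicit false

namespace Pool.Agent.H92.Old309968.TenPointsSubspace

open Pool.Agent.H13 Pool.Agent.H92.T3

/-- For every `n ≥ 10` and very general points of the complex projective plane, consider the
`5`-dimensional linear space `L` of the classes
`y = (2 F; c₁, c₁, c₂, c₂, c₃, c₃, 2 s, 2 s, e - 2 s, e - s, 0, …)` with real `F`, `c i`, `s` and
`e = 3 F - c₁ - c₂ - c₃`.  For `y` in `L` the following are equivalent: `y` lies in the closed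
cone of curves; `y` lies in the conjectural cone, spanned by the positive cone and the
`(-1)`-curves; `y` lies in the positive cone; `y` is nef.  All nonzero such `y` satisfy
`K · y > 0`. -/
theorem result : ∀ n : ℕ, 10 ≤ n →
    VeryGeneral n (fun p => ∀ F c₁ c₂ c₃ s : ℝ, ∀ y : ℝ × (Fin n → ℝ),
      y = class10 n F c₁ c₂ c₃ s →
      ((y ∈ moriCone p ↔ y ∈ expectedCone p) ∧
        (y ∈ moriCone p ↔ 0 ≤ y.1 ∧ ∑ i, y.2 i ^ 2 ≤ y.1 ^ 2) ∧
        (y ∈ moriCone p ↔ ∀ v ∈ moriCone p, 0 ≤ y.1 * v.1 - ∑ i, y.2 i * v.2 i) ∧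
        (y ∈ moriCone p → y ≠ 0 → 0 < -3 * y.1 + ∑ i, y.2 i))) :=
  fun n hn => thm3' n hn

end Pool.Agent.H92.Old309968.TenPointsSubspace
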